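import Pool.Agent.helper68.FY.Spec

/-!
# MP_f6e9a2_nt, project fy, row FIN
-/

set_option autoImplicit false

namespace Pool.Agent.helper68.FY

open Finset

theorem FIN (h1 : FN1_stmt) (h2 : FN2_stmt) (h3 : CUT_stmt) : FIN_stmt := by
  intro ε hε
  obtain ⟨p₁, δ₁, hδ₁, H1⟩ := h1 (ε / 24) (by positivity)
  obtain ⟨p₂, δ₂, hδ₂, H2⟩ := h2 ε hε
  obtain ⟨p₃, hp₃⟩ := exists_nat_ge ((2 : ℝ) ^ (1 / (ε / 24)))
  refine ⟨max (max p₁ p₂) p₃, min δ₁ δ₂, lt_min hδ₁ hδ₂, ?_⟩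
  intro p _ hp χ hχ B β hβ Q hQ hQ4 hB hB4
  have hpp : p.Prime := Fact.out
  have hp1 : p₁ < p := lt_of_le_of_lt ((le_max_left _ _).trans (le_max_left _ _)) hp
  have hp2 : p₂ < p := lt_of_le_of_lt ((le_max_right _ _).trans (le_max_left _ _)) hp
  have hp3 : p₃ < p := lt_of_le_of_lt (le_max_right _ _) hp
  have hpR : (1 : ℝ) ≤ p := by exact_mod_cast hpp.one_lt.le
  have hp0 : (0 : ℝ) < p := by linarith
  have hfin : ∀ δ : ℝ, min δ₁ δ₂ ≤ δ → S1 p χ B β Q ≤ (p : ℝ) ^ (-δ) * (Q : ℝ) ^ 2 * B.card →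
      S1 p χ B β Q ≤ (p : ℝ) ^ (-(min δ₁ δ₂)) * (Q : ℝ) ^ 2 * B.card := by
    intro δ hδ h
    refine h.trans ?_
    have : (p : ℝ) ^ (-δ) ≤ (p : ℝ) ^ (-(min δ₁ δ₂)) :=
      Real.rpow_le_rpow_of_exponent_le hpR (by linarith)
    gcongr
  rcases le_or_gt ((Q : ℝ) ^ 2) ((p : ℝ) ^ (1 / 4 + ε / 12)) with hc | hc
  · exact hfin δ₂ (min_le_right _ _) (H2 p hp2 χ hχ B β hβ Q hQ hc hB4)
  -- second case
  apply hfin δ₁ (min_le_left _ _)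
  have htwo : (2 : ℝ) ≤ (p : ℝ) ^ (ε / 24) := by
    have h4 : (2 : ℝ) ^ (1 / (ε / 24)) ≤ p := hp₃.trans (by exact_mod_cast hp3.le)
    calc (2 : ℝ) = ((2 : ℝ) ^ (1 / (ε / 24))) ^ (ε / 24) := by
          rw [← Real.rpow_mul (by norm_num), one_div, inv_mul_cancel₀ (by positivity),
            Real.rpow_one]
      _ ≤ (p : ℝ) ^ (ε / 24) := Real.rpow_le_rpow (by positivity) h4 (by positivity)
  have hQ2 : (p : ℝ) ^ (1 / 4 + ε / 24) ≤ (Q : ℝ) ^ 2 :=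
    (Real.rpow_le_rpow_of_exponent_le hpR (by linarith)).trans hc.le
  have hr1 : (1 : ℝ) ≤ (p : ℝ) ^ (1 / 4 : ℝ) := Real.one_le_rpow hpR (by norm_num)
  have hf1 : 1 ≤ ⌊(p : ℝ) ^ (1 / 4 : ℝ)⌋₊ := by
    rw [Nat.one_le_floor_iff]
    exact hr1
  have hf2 : ((⌊(p : ℝ) ^ (1 / 4 : ℝ)⌋₊ : ℕ) : ℝ) ≤ (p : ℝ) ^ (1 / 4 : ℝ) :=
    Nat.floor_le (by linarith)
  have hf3 : (p : ℝ) ^ (1 / 4 : ℝ) ≤ 2 * ((⌊(p : ℝ) ^ (1 / 4 : ℝ)⌋₊ : ℕ) : ℝ) := by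
    have h5 := Nat.lt_floor_add_one ((p : ℝ) ^ (1 / 4 : ℝ))
    have h6 : (1 : ℝ) ≤ ((⌊(p : ℝ) ^ (1 / 4 : ℝ)⌋₊ : ℕ) : ℝ) := by exact_mod_cast hf1
    linarith
  have hBpos : 1 ≤ B.card := by
    by_contra h
    have h0 : B.card = 0 := by omega
    rw [h0] at hB
    have : (0 : ℝ) < (p : ℝ) ^ (1 / 2 + ε) := Real.rpow_pos_of_pos hp0 _
    simp at hB
    linarith
  set m : ℕ := min B.card ⌊(p : ℝ) ^ (1 / 4 : ℝ)⌋₊ with hm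
  have hm1 : 1 ≤ m := le_min hBpos hf1
  have hQm : (p : ℝ) ^ (1 / 2 + ε / 24) ≤ (Q : ℝ) ^ 2 * m := by
    rcases min_choice B.card ⌊(p : ℝ) ^ (1 / 4 : ℝ)⌋₊ with h | h
    · rw [hm, h]
      exact (Real.rpow_le_rpow_of_exponent_le hpR (by linarith)).trans hB
    · rw [hm, h]
      have h7 : (p : ℝ) ^ (1 / 2 + ε / 24) * (p : ℝ) ^ (ε / 24) =
          (p : ℝ) ^ (1 / 4 + ε / 12) * (p : ℝ) ^ (1 / 4 : ℝ) := by
        rw [← Real.rpow_add hp0, ← Real.rpow_add hp0]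
        congr 1
        ring
      have h8 : (0 : ℝ) < (p : ℝ) ^ (1 / 2 + ε / 24) := Real.rpow_pos_of_pos hp0 _
      have h9 : (p : ℝ) ^ (1 / 4 + ε / 12) * (p : ℝ) ^ (1 / 4 : ℝ) ≤
          (Q : ℝ) ^ 2 * (2 * ((⌊(p : ℝ) ^ (1 / 4 : ℝ)⌋₊ : ℕ) : ℝ)) :=
        mul_le_mul hc.le hf3 (by linarith) (by positivity)
      nlinarith
  have := h3 p χ β Q m ((p : ℝ) ^ (-δ₁) * (Q : ℝ) ^ 2) hm1 (by
    intro B' hB1 hB2
    refine H1 p hp1 χ hχ B' β hβ Q hQ4 hQ2 ?_ ?_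
    · have h10 : (B'.card : ℝ) ≤ 2 * m := by exact_mod_cast hB2
      have h11 : (m : ℝ) ≤ ((⌊(p : ℝ) ^ (1 / 4 : ℝ)⌋₊ : ℕ) : ℝ) := by
        exact_mod_cast min_le_right _ _
      linarith
    · refine hQm.trans ?_
      have : (m : ℝ) ≤ B'.card := by exact_mod_cast hB1
      gcongr) B (min_le_left _ _)
  exact this

end Pool.Agent.helper68.FY
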